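import Pool.Agent.Helper543.NearDecAsymp

set_option autoImplicit false

namespace Pool.Agent.Results.MP_c02e9e_co.LogAsymptotics

open Finset Filter Pool.Agent.Helper543.NearDec

/-- The number `N n` of nearly decomposable `n × n` matrices satisfies
`(n-h)! h^(2(n-3h)) ≤ N n ≤ n! n^(2(n-1))` for all `n ≥ 2`, `h ≥ 1`, `3h ≤ n`, and
`log N n ~ 3 n log n`. -/
theorem result :
    (∀ n : ℕ, 2 ≤ n → N n ≤ n.factorial * n ^ (2 * (n - 1))) ∧
    (∀ n h : ℕ, 1 ≤ h → 3 * h ≤ n → (n - h).factorial * h ^ (2 * (n - 3 * h)) ≤ N n) ∧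
    Tendsto (fun n : ℕ => Real.log (N n) / (n * Real.log n)) atTop (nhds 3) :=
  ⟨fun _ hn => N_le hn, fun _ _ h1 h3 => N_ge' h1 h3, tendsto_three⟩

end Pool.Agent.Results.MP_c02e9e_co.LogAsymptotics
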